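import Pool.Agent.H21.CQ.Main

/-!
# MP_4fe60b_al: compact quotients of `SL(n, ℝ) / ψ(SL(m, ℝ))` for reducible `ψ`

A subgroup `Γ` of `SL(n, ℝ)` with `Γ \ SL(n, ℝ) / ψ(SL(m, ℝ))` compact contracts the volume of every
`k`-dimensional subspace, if `ψ` leaves some `k`-dimensional subspace invariant (`0 < k < n`).
Consequences: it preserves no lattice, no nondegenerate symmetric bilinear form, and the volume of no
invariant `k`-dimensional subspace.
-/

set_option autoImplicit false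

open Matrix Module

namespace Pool.Agent.Results.MP_4fe60b_al.ContractsPlanes

/-- The group `SL(n, ℝ)`; its topology is that of a set of matrices. -/
abbrev SL (n : ℕ) : Type := Matrix.SpecialLinearGroup (Fin n) ℝ

/-- The action of `SL(n, ℝ)` on `ℝ^n`. -/
def act {n : ℕ} (g : SL n) (v : Fin n → ℝ) : Fin n → ℝ :=
  (g : Matrix (Fin n) (Fin n) ℝ) *ᵥ v

/-- The quotient of `SL(n, ℝ) / ψ(SL(m, ℝ))` by the left translations of `Γ` is compact. -/
def CompactQuotient {m n : ℕ} (ψ : SL m →* SL n) (Γ : Subgroup (SL n)) : Prop :=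
  CompactSpace (MulAction.orbitRel.Quotient Γ (SL n ⧸ ψ.range))

/-- The `k`-dimensional volume of the parallelepiped spanned by `v 0, ..., v (k-1)`: the square root
of the Gram determinant. -/
noncomputable def kvol {n k : ℕ} (v : Fin k → (Fin n → ℝ)) : ℝ :=
  Real.sqrt (Matrix.det (Matrix.of fun i j => v i ⬝ᵥ v j))

/-- `Γ` maps some lattice of `ℝ^n` (the integral span of a basis) into itself. -/
def PreservesLattice {n : ℕ} (Γ : Subgroup (SL n)) : Prop :=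
  ∃ b : Basis (Fin n) ℝ (Fin n → ℝ), ∀ γ ∈ Γ, ∀ v ∈ Submodule.span ℤ (Set.range b),
    act γ v ∈ Submodule.span ℤ (Set.range b)

/-- `Γ` preserves some nondegenerate symmetric bilinear form on `ℝ^n`. -/
def PreservesForm {n : ℕ} (Γ : Subgroup (SL n)) : Prop :=
  ∃ S : Matrix (Fin n) (Fin n) ℝ, Sᵀ = S ∧ S.det ≠ 0 ∧
    ∀ γ ∈ Γ, (γ : Matrix (Fin n) (Fin n) ℝ)ᵀ * S * (γ : Matrix (Fin n) (Fin n) ℝ) = S

/-- `Γ` maps into itself some discrete subgroup of `(ℝ^n)^k` which contains a linearly independent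
`k`-tuple. -/
def PreservesDiscreteTuples {n : ℕ} (k : ℕ) (Γ : Subgroup (SL n)) : Prop :=
  ∃ L : AddSubgroup (Fin k → (Fin n → ℝ)), DiscreteTopology L ∧
    (∃ v ∈ L, LinearIndependent ℝ v) ∧ ∀ γ ∈ Γ, ∀ v ∈ L, (fun j => act γ (v j)) ∈ L

/-- All `k`-tuples of vectors are mapped to tuples of arbitrarily small `k`-volume. -/
def ContractsVolumes {n : ℕ} (k : ℕ) (Γ : Subgroup (SL n)) : Prop :=
  ∀ v : Fin k → (Fin n → ℝ), ∀ ε : ℝ, 0 < ε → ∃ γ ∈ Γ, kvol (fun i => act γ (v i)) < ε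

/-- `Γ` leaves some `k`-dimensional subspace (with basis `v`) invariant and acts on it with
determinants `1` and `-1` only. -/
def PreservesPlaneVolume {n : ℕ} (k : ℕ) (Γ : Subgroup (SL n)) : Prop :=
  ∃ v : Fin k → (Fin n → ℝ), LinearIndependent ℝ v ∧ ∀ γ ∈ Γ,
    ∃ R : Matrix (Fin k) (Fin k) ℝ, |R.det| = 1 ∧ ∀ j, act γ (v j) = ∑ i, R i j • v i

/-- For every independent `k`-tuple some `γ` makes all coordinates of all vectors small. -/
def ContractsTuples {n : ℕ} (k : ℕ) (Γ : Subgroup (SL n)) : Prop :=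
  ∀ v : Fin k → (Fin n → ℝ), LinearIndependent ℝ v → ∀ ε : ℝ, 0 < ε →
    ∃ γ ∈ Γ, ∀ j i, |act γ (v j) i| < ε

theorem result (m n k : ℕ) (hk : 0 < k) (hkn : k < n) (ψ : SL m →* SL n)
    (W : Submodule ℝ (Fin n → ℝ)) (hWk : finrank ℝ W = k)
    (hW : ∀ x : SL m, ∀ w ∈ W, act (ψ x) w ∈ W)
    (Γ : Subgroup (SL n)) (hc : CompactQuotient ψ Γ) :
    ContractsVolumes k Γ ∧ ¬ PreservesLattice Γ ∧ ¬ PreservesForm Γ ∧ ¬ PreservesPlaneVolume k Γ ∧
    ((∀ x : SL m, ∀ w ∈ W, act (ψ x) w = w) →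
      ContractsTuples k Γ ∧ ¬ PreservesDiscreteTuples k Γ) := by
  obtain ⟨h1, h2, h3, h4, h5⟩ := Pool.Agent.H21.CQ.main m n k hk hkn ψ W hWk hW Γ hc
  refine ⟨h1, ?_, ?_, ?_, ?_⟩
  · rintro ⟨b, hb⟩
    exact h2 b hb
  · rintro ⟨S, hS, hd, hi⟩
    exact h3 S hS hd hi
  · rintro ⟨v, hv, hi⟩
    exact h4 v hv hi
  · intro hfix
    obtain ⟨h6, h7⟩ := h5 hfix
    refine ⟨?_, ?_⟩
    · intro v hv ε hε
      obtain ⟨γ, hγ, h⟩ := h6 v hv ε hε
      refine ⟨γ, hγ, fun j i => ?_⟩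
      exact (norm_le_pi_norm (f := (γ : Matrix (Fin n) (Fin n) ℝ) *ᵥ v j) i).trans_lt (h j)
    · rintro ⟨L, hL, hv, hi⟩
      exact h7 L hL hv hi

end Pool.Agent.Results.MP_4fe60b_al.ContractsPlanes
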