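import Pool.Agent.H9.IP.Dual
import Pool.Agent.H9.IQ.DualD
import Pool.Agent.H9.JE.Main

/-!
# MP_4fe60b_al: invariant polynomials of cocompact groups for `SL(n, ℝ) / ψ(SL(m, ℝ))`

Let `Γ \ SL(n, ℝ) / ψ(SL(m, ℝ))` be compact. Then every regular function on `SL(n, ℝ)` which is left
`Γ`-invariant and right `ψ(SL(m, ℝ))`-invariant is constant. If the image of `ψ` has a nonconstant
invariant polynomial on the dual of `ℝ^n`, then `Γ` has none on `ℝ^n`; the same for relative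
invariants of `d` vectors. For the standard embedding the `Γ`-invariant polynomials of `n - m` vectors
and `n - m` covectors are polynomials in the pairings.
-/

set_option autoImplicit false

open Matrix MvPolynomial

namespace Pool.Agent.Results.MP_4fe60b_al.InvariantPolynomials

/-- The group `SL(n, ℝ)`; its topology is that of a set of matrices. -/
abbrev SL (n : ℕ) : Type := Matrix.SpecialLinearGroup (Fin n) ℝ

/-- The matrix of an element of `SL(n, ℝ)`. -/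
abbrev mat {n : ℕ} (g : SL n) : Matrix (Fin n) (Fin n) ℝ := (g : Matrix (Fin n) (Fin n) ℝ)

/-- The quotient of `SL(n, ℝ) / ψ(SL(m, ℝ))` by the left translations of `Γ` is compact. -/
def CompactQuotient {m n : ℕ} (ψ : SL m →* SL n) (Γ : Subgroup (SL n)) : Prop :=
  CompactSpace (MulAction.orbitRel.Quotient Γ (SL n ⧸ ψ.range))

/-- The value at `g` of the polynomial function `p` of the entries of a matrix. -/
noncomputable def value {n : ℕ} (p : MvPolynomial (Fin n × Fin n) ℝ) (g : SL n) : ℝ :=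
  MvPolynomial.eval (fun ij => mat g ij.1 ij.2) p

/-- The polynomial `f` in `n` variables is invariant under the matrix `A`: `f(A v) = f(v)`. -/
def Inv {n : ℕ} (A : Matrix (Fin n) (Fin n) ℝ) (f : MvPolynomial (Fin n) ℝ) : Prop :=
  ∀ v : Fin n → ℝ, MvPolynomial.eval (A *ᵥ v) f = MvPolynomial.eval v f

/-- The value of a polynomial in `n * d` variables at `d` vectors; the variable `(i, j)` is the
`i`-th coordinate of the `j`-th vector. -/
noncomputable def valueAt {n d : ℕ} (f : MvPolynomial (Fin n × Fin d) ℝ)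
    (v : Fin d → Fin n → ℝ) : ℝ :=
  MvPolynomial.eval (fun p => v p.2 p.1) f

/-- `f(A v_1, ..., A v_d) = f(v_1, ..., v_d)`. -/
def InvTuple {n d : ℕ} (A : Matrix (Fin n) (Fin n) ℝ) (f : MvPolynomial (Fin n × Fin d) ℝ) : Prop :=
  ∀ v : Fin d → Fin n → ℝ, valueAt f (fun j => A *ᵥ v j) = valueAt f v

/-- `f(w) = det(B)^k f(v)` if `w_j = ∑_i B_ij v_i`. -/
def Weight {n d : ℕ} (k : ℕ) (f : MvPolynomial (Fin n × Fin d) ℝ) : Prop :=
  ∀ (B : Matrix (Fin d) (Fin d) ℝ) (v : Fin d → Fin n → ℝ),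
    valueAt f (fun j => ∑ i, B i j • v i) = B.det ^ k * valueAt f v

/-- The value of a polynomial at `k` vectors (the columns of `v`) and `k` covectors (the columns of
`ξ`). -/
noncomputable def value2 {n k : ℕ} (v ξ : Matrix (Fin n) (Fin k) ℝ)
    (f : MvPolynomial ((Fin n × Fin k) ⊕ (Fin n × Fin k)) ℝ) : ℝ :=
  MvPolynomial.eval (Sum.elim (fun q => v q.1 q.2) (fun q => ξ q.1 q.2)) f

/-- `ψ` is the standard embedding: `x` in the upper left corner, the identity matrix in the lower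
right corner, zero elsewhere. -/
def IsStandard {m n : ℕ} (ψ : SL m →* SL n) : Prop :=
  ∀ (x : SL m) (i j : Fin n),
    mat (ψ x) i j = if h : (i : ℕ) < m ∧ (j : ℕ) < m then
      mat x ⟨i, h.1⟩ ⟨j, h.2⟩ else if i = j then 1 else 0

theorem result (m n : ℕ) (hn : 2 ≤ n) (ψ : SL m →* SL n) (Γ : Subgroup (SL n))
    (hc : CompactQuotient ψ Γ) :
    -- (1) regular functions
    (∀ p : MvPolynomial (Fin n × Fin n) ℝ,
      (∀ γ ∈ Γ, ∀ g, value p (γ * g) = value p g) → (∀ x g, value p (g * ψ x) = value p g) →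
      ∀ g, value p g = value p 1) ∧
    -- (2) invariants of the image of `ψ` on the dual exclude invariants of `Γ` on `ℝ^n`
    ((∃ D : MvPolynomial (Fin n) ℝ, (∀ c, D ≠ C c) ∧ ∀ x, Inv (mat (ψ x))ᵀ D) →
      ∀ f : MvPolynomial (Fin n) ℝ, (∀ γ ∈ Γ, Inv (mat γ) f) → ∃ c, f = C c) ∧
    -- (3) the same for relative invariants of `d` vectors
    (∀ (d k r : ℕ), 0 < d → d < n → 0 < k → 0 < r →
      (∃ D : MvPolynomial (Fin n × Fin d) ℝ, D ≠ 0 ∧ Weight k D ∧
        ∀ x, InvTuple (mat (ψ x))ᵀ D) →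
      ∀ f : MvPolynomial (Fin n × Fin d) ℝ, Weight r f → (∀ γ ∈ Γ, InvTuple (mat γ) f) → f = 0) ∧
    -- (4) the dual statements
    ((∃ D : MvPolynomial (Fin n) ℝ, (∀ c, D ≠ C c) ∧ ∀ x, Inv (mat (ψ x)) D) →
      ∀ f : MvPolynomial (Fin n) ℝ, (∀ γ ∈ Γ, Inv (mat γ)ᵀ f) → ∃ c, f = C c) ∧
    (∀ (d k r : ℕ), 0 < d → d < n → 0 < k → 0 < r →
      (∃ D : MvPolynomial (Fin n × Fin d) ℝ, D ≠ 0 ∧ Weight k D ∧
        ∀ x, InvTuple (mat (ψ x)) D) →
      ∀ f : MvPolynomial (Fin n × Fin d) ℝ, Weight r f → (∀ γ ∈ Γ, InvTuple (mat γ)ᵀ f) →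
        f = 0) ∧
    -- (5) the standard embedding: invariants of `k = n - m` vectors and `k` covectors
    (IsStandard ψ → 0 < m → ∀ k : ℕ, m + k = n →
      ∀ f : MvPolynomial ((Fin n × Fin k) ⊕ (Fin n × Fin k)) ℝ,
        (∀ γ ∈ Γ, ∀ v ξ : Matrix (Fin n) (Fin k) ℝ,
          value2 (mat γ * v) ((mat γ⁻¹)ᵀ * ξ) f = value2 v ξ f) →
        ∃ φ : MvPolynomial (Fin k × Fin k) ℝ, ∀ v ξ : Matrix (Fin n) (Fin k) ℝ,
          value2 v ξ f = MvPolynomial.eval (fun p => (vᵀ * ξ) p.1 p.2) φ) := by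
  have hcov := Pool.Agent.H9.IP.cover ψ Γ hc
  refine ⟨?_, ?_, ?_, ?_, ?_, ?_⟩
  · intro p hl hr g
    refine Pool.Agent.H9.IP.regular_const ψ.range Γ hcov p (value p) (fun _ => rfl) hl ?_ g
    rintro _ ⟨x, rfl⟩ g
    exact hr x g
  · rintro ⟨D, hD, hDi⟩ f hf
    refine Pool.Agent.H9.IP.core' hn ψ.range Γ hcov D f hD ?_ hf
    rintro _ ⟨x, rfl⟩
    exact hDi x
  · rintro d k r hd hdn hk hr ⟨D, hD0, hDw, hDi⟩ f hfw hfi
    refine Pool.Agent.H9.IQ.core_d hd hdn ψ.range Γ hcov D f k r hk hr hDw hfw hD0 ?_ hfi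
    rintro _ ⟨x, rfl⟩
    exact hDi x
  · rintro ⟨D, hD, hDi⟩ f hf
    refine Pool.Agent.H9.IP.core_dual hn ψ.range Γ hcov D f hD ?_ hf
    rintro _ ⟨x, rfl⟩
    exact hDi x
  · rintro d k r hd hdn hk hr ⟨D, hD0, hDw, hDi⟩ f hfw hfi
    refine Pool.Agent.H9.IQ.core_d_dual hd hdn ψ.range Γ hcov D f k r hk hr hDw hfw hD0 ?_ hfi
    rintro _ ⟨x, rfl⟩
    exact hDi x
  · rintro hψ hm k rfl f hf
    refine Pool.Agent.H9.JE.pairings hm ψ.range Γ hcov ?_ f hf
    rintro _ ⟨x, rfl⟩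
    refine Pool.Agent.H9.JE.std_fix _ (fun i j hi => ?_) (fun i j hj => ?_)
    · exact (hψ x i j).trans (dif_neg fun h => absurd h.1 (by omega))
    · exact (hψ x i j).trans (dif_neg fun h => absurd h.2 (by omega))

end Pool.Agent.Results.MP_4fe60b_al.InvariantPolynomials
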