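import Pool.Agent.H9.IH.Fin
import Pool.Agent.H9.IH.Sub
import Pool.Agent.H9.IH.Std
import Pool.Agent.H9.JD.Main2
import Pool.Agent.H9.JF.Main

/-!
# MP_4fe60b_al: invariant subspaces of discontinuous groups for `SL(n, ℝ) / ψ(SL(m, ℝ))`

If `Γ` acts properly discontinuously on `SL(n, ℝ) / ψ(SL(m, ℝ))` with compact quotient, and the image
of `ψ` has a `C¹` relative invariant of `d` vectors (`0 < d < n`), then no subgroup of finite index of
`Γ` leaves a `d`-dimensional subspace of `ℝ^n` invariant. For polynomial representations such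
invariants exist if `d (n - d) ≥ m² - 1`. For the standard embedding, `m < n`, no subgroup of finite
index leaves a subspace of any dimension `0 < d < n` invariant and acts on it with determinants
`1` and `-1` only.
-/

set_option autoImplicit false

open Matrix Module

namespace Pool.Agent.Results.MP_4fe60b_al.IrreducibleHolonomy

/-- The group `SL(n, ℝ)`; its topology is that of a set of matrices. -/
abbrev SL (n : ℕ) : Type := Matrix.SpecialLinearGroup (Fin n) ℝ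

/-- The matrix of an element of `SL(n, ℝ)`. -/
abbrev mat {n : ℕ} (g : SL n) : Matrix (Fin n) (Fin n) ℝ := (g : Matrix (Fin n) (Fin n) ℝ)

/-- `Γ` acts properly discontinuously on `SL(n, ℝ) / ψ(SL(m, ℝ))` by left translations. -/
def ProperlyDiscontinuous {m n : ℕ} (ψ : SL m →* SL n) (Γ : Subgroup (SL n)) : Prop :=
  ∀ K : Set (SL n ⧸ ψ.range), IsCompact K → {γ : Γ | ∃ x ∈ K, γ • x ∈ K}.Finite

/-- The quotient of `SL(n, ℝ) / ψ(SL(m, ℝ))` by the left translations of `Γ` is compact. -/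
def CompactQuotient {m n : ℕ} (ψ : SL m →* SL n) (Γ : Subgroup (SL n)) : Prop :=
  CompactSpace (MulAction.orbitRel.Quotient Γ (SL n ⧸ ψ.range))

/-- Some subgroup of finite index of `Γ` maps the subspace `U` into itself. -/
def VirtuallyInvariant {n : ℕ} (Γ : Subgroup (SL n)) (U : Submodule ℝ (Fin n → ℝ)) : Prop :=
  ∃ Γ₀ : Subgroup (SL n), Γ₀ ≤ Γ ∧ Γ₀.relIndex Γ ≠ 0 ∧ ∀ γ ∈ Γ₀, ∀ u ∈ U, mat γ *ᵥ u ∈ U

/-- No subgroup of finite index of `Γ` maps a `d`-dimensional subspace of `ℝ^n` into itself. -/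
def NoneOfDim {n : ℕ} (Γ : Subgroup (SL n)) (d : ℕ) : Prop :=
  ∀ U : Submodule ℝ (Fin n → ℝ), finrank ℝ U = d → ¬ VirtuallyInvariant Γ U

/-- Every element of a subgroup of finite index of `Γ` maps the span of the vectors `u` into itself,
with determinant `1` or `-1`. -/
def VirtuallyUnimodular {n d : ℕ} (Γ : Subgroup (SL n)) (u : Fin d → Fin n → ℝ) : Prop :=
  ∃ Γ₀ : Subgroup (SL n), Γ₀ ≤ Γ ∧ Γ₀.relIndex Γ ≠ 0 ∧ ∀ γ ∈ Γ₀, ∃ A : Matrix (Fin d) (Fin d) ℝ,
    (∀ j, mat γ *ᵥ u j = ∑ i, A i j • u i) ∧ |A.det| = 1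

/-- Every subgroup of finite index of `Γ` has finite abelianization. -/
def FiniteAbelianizations {n : ℕ} (Γ : Subgroup (SL n)) : Prop :=
  ∀ Γ₀ : Subgroup (SL n), Γ₀ ≤ Γ → Γ₀.relIndex Γ ≠ 0 → Finite (Abelianization Γ₀)

/-- `P` is a nonzero `C¹` function of `d` vectors of `ℝ^n`, invariant under the matrices `M x` and
multiplied by `det(A)^k` when the `d` vectors are recombined by a `d × d` matrix `A`. -/
def RelativeInvariant {m n : ℕ} (M : SL m → Matrix (Fin n) (Fin n) ℝ) (d k : ℕ)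
    (P : (Fin d → Fin n → ℝ) → ℝ) : Prop :=
  ContDiff ℝ 1 P ∧ (∃ v, P v ≠ 0) ∧
    (∀ (x : SL m) (v : Fin d → Fin n → ℝ), P (fun j => M x *ᵥ v j) = P v) ∧
    ∀ (A : Matrix (Fin d) (Fin d) ℝ) (v : Fin d → Fin n → ℝ),
      P (fun j => ∑ i, A i j • v i) = A.det ^ k * P v

/-- `ψ` is the standard embedding: `x` in the upper left corner, the identity matrix in the lower
right corner, zero elsewhere. -/
def IsStandard {m n : ℕ} (ψ : SL m →* SL n) : Prop :=
  m ≤ n ∧ ∀ (x : SL m) (i j : Fin n),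
    mat (ψ x) i j = if h : (i : ℕ) < m ∧ (j : ℕ) < m then
      mat x ⟨i, h.1⟩ ⟨j, h.2⟩ else if i = j then 1 else 0

/-- The entries of `ψ(x)` are polynomials in the entries of `x`. -/
def IsPolynomial {m n : ℕ} (ψ : SL m →* SL n) : Prop :=
  ∃ F : Fin n → Fin n → MvPolynomial (Fin m × Fin m) ℝ, ∀ (x : SL m) (i j : Fin n),
    mat (ψ x) i j = MvPolynomial.eval (fun p => mat x p.1 p.2) (F i j)

/-- from the matrix form of the relative invariants -/
theorem rel_of_matrix {m n d k : ℕ} (ψ : SL m →* SL n) (P : MvPolynomial (Fin n × Fin d) ℝ)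
    (hP0 : P ≠ 0)
    (hw : ∀ (B : Matrix (Fin d) (Fin d) ℝ) (v : Matrix (Fin n) (Fin d) ℝ),
      Pool.Agent.H9.JD.val (v * B) P = B.det ^ k * Pool.Agent.H9.JD.val v P)
    (hi : ∀ (x : SL m) (v : Matrix (Fin n) (Fin d) ℝ),
      Pool.Agent.H9.JD.val ((mat (ψ x))ᵀ * v) P = Pool.Agent.H9.JD.val v P) :
    RelativeInvariant (fun x => (mat (ψ x))ᵀ) d k
      (fun v => MvPolynomial.eval (fun p => v p.2 p.1) P) := by
  refine ⟨?_, ?_, fun x v => hi x (Matrix.of fun i j => v j i), fun B v => ?_⟩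
  · have h : (fun v : Fin d → Fin n → ℝ => MvPolynomial.eval (fun p => v p.2 p.1) P) = fun v =>
        ∑ a ∈ P.support, MvPolynomial.coeff a P * ∏ q : Fin n × Fin d, v q.2 q.1 ^ a q := by
      funext v
      rw [MvPolynomial.eval_eq' (fun p : Fin n × Fin d => v p.2 p.1) P]
    rw [h]
    refine ContDiff.sum fun a _ => contDiff_const.mul (contDiff_prod fun q _ => ContDiff.pow ?_ _)
    have h1 : ContDiff ℝ 1 fun v : Fin d → Fin n → ℝ => v q.2 := contDiff_apply ℝ (Fin n → ℝ) q.2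
    exact (contDiff_apply ℝ ℝ q.1).comp h1
  · by_contra h3
    push Not at h3
    apply hP0
    refine MvPolynomial.funext fun x => ?_
    rw [map_zero]
    exact h3 fun j i => x (i, j)
  · have h1 := hw B (Matrix.of fun i j => v j i)
    have e : (fun p : Fin n × Fin d => (fun j => ∑ i, B i j • v i) p.2 p.1) =
        fun p => ((Matrix.of fun i j => v j i : Matrix (Fin n) (Fin d) ℝ) * B) p.1 p.2 := by
      funext p
      show (∑ i, B i p.2 • v i) p.1 = _
      rw [Matrix.mul_apply, Finset.sum_apply]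
      refine Finset.sum_congr rfl fun i _ => ?_
      rw [Pi.smul_apply, smul_eq_mul, mul_comm]
      rfl
    show MvPolynomial.eval (fun p : Fin n × Fin d => (fun j => ∑ i, B i j • v i) p.2 p.1) P = _
    rw [e]
    exact h1

/-- A group of matrices with finite abelianization acts with determinants `1` and `-1` on every
invariant subspace. -/
theorem abs_det_eq_one {n : ℕ} (Γ₀ : Subgroup (SL n)) (hab : Finite (Abelianization Γ₀))
    (U : Submodule ℝ (Fin n → ℝ)) (h : ∀ γ ∈ Γ₀, ∀ u ∈ U, mat γ *ᵥ u ∈ U) (γ : SL n)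
    (hγ : γ ∈ Γ₀) : |LinearMap.det ((mat γ).mulVecLin.restrict (h γ hγ))| = 1 := by
  obtain ⟨χ, hχ⟩ : ∃ χ : Γ₀ →* ℝ, ∀ δ : Γ₀, χ δ =
      |LinearMap.det ((mat (δ : SL n)).mulVecLin.restrict (h δ δ.2))| := by
    refine ⟨{ toFun := fun δ => |LinearMap.det ((mat (δ : SL n)).mulVecLin.restrict (h δ δ.2))|
              map_one' := ?_
              map_mul' := fun δ ε => ?_ }, fun δ => rfl⟩
    · have e : (mat ((1 : Γ₀) : SL n)).mulVecLin.restrict (h (1 : Γ₀) (1 : Γ₀).2) =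
          (LinearMap.id : U →ₗ[ℝ] U) := by
        refine LinearMap.ext fun u => Subtype.ext ?_
        exact Matrix.one_mulVec (u : Fin n → ℝ)
      show |LinearMap.det ((mat ((1 : Γ₀) : SL n)).mulVecLin.restrict (h (1 : Γ₀) (1 : Γ₀).2))| = 1
      rw [e, LinearMap.det_id, abs_one]
    · have e : (mat ((δ * ε : Γ₀) : SL n)).mulVecLin.restrict (h (δ * ε : Γ₀) (δ * ε : Γ₀).2) =
          (mat (δ : SL n)).mulVecLin.restrict (h δ δ.2) ∘ₗ
            (mat (ε : SL n)).mulVecLin.restrict (h ε ε.2) := by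
        refine LinearMap.ext fun u => Subtype.ext ?_
        exact (Matrix.mulVec_mulVec (u : Fin n → ℝ) (mat (δ : SL n)) (mat (ε : SL n))).symm
      show |LinearMap.det ((mat ((δ * ε : Γ₀) : SL n)).mulVecLin.restrict
        (h (δ * ε : Γ₀) (δ * ε : Γ₀).2))| = _
      rw [e, LinearMap.det_comp, abs_mul]
  have h1 : ∀ δ : Γ₀, χ δ = 1 := by
    intro δ
    obtain ⟨N, hN, hN1⟩ := isOfFinOrder_iff_pow_eq_one.1
      (isOfFinOrder_of_finite (Abelianization.of δ))
    have h2 := congrArg (Abelianization.lift χ.toHomUnits) hN1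
    rw [map_pow, map_one, Abelianization.lift_apply_of] at h2
    have h3 : χ δ ^ N = 1 := by
      have h4 := congrArg Units.val h2
      rwa [Units.val_pow_eq_pow_val, Units.val_one, MonoidHom.coe_toHomUnits] at h4
    exact (pow_eq_one_iff_of_nonneg (by rw [hχ]; exact abs_nonneg _) hN.ne').1 h3
  rw [← hχ ⟨γ, hγ⟩]
  exact h1 _

/-- the determinant on the span of independent vectors -/
theorem det_span {n d : ℕ} (u : Fin d → Fin n → ℝ) (hu : LinearIndependent ℝ u)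
    (g : Matrix (Fin n) (Fin n) ℝ) (A : Matrix (Fin d) (Fin d) ℝ)
    (hA : ∀ j, g *ᵥ u j = ∑ i, A i j • u i)
    (f : Submodule.span ℝ (Set.range u) →ₗ[ℝ] Submodule.span ℝ (Set.range u))
    (hf : ∀ x : Submodule.span ℝ (Set.range u), (f x : Fin n → ℝ) = g *ᵥ (x : Fin n → ℝ)) :
    LinearMap.det f = A.det := by
  classical
  rw [← LinearMap.det_toMatrix (Basis.span hu)]
  congr 1
  ext i j
  rw [LinearMap.toMatrix_apply]
  have h : f (Basis.span hu j) = ∑ i, A i j • Basis.span hu i := by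
    refine Subtype.ext ?_
    rw [hf, Basis.span_apply, hA, Submodule.coe_sum]
    refine Finset.sum_congr rfl fun i _ => ?_
    rw [Submodule.coe_smul, Basis.span_apply]
  rw [h, map_sum, Finsupp.finset_sum_apply, Finset.sum_eq_single i]
  · rw [map_smul, Basis.repr_self, Finsupp.smul_apply, Finsupp.single_eq_same, smul_eq_mul, mul_one]
  · intro b _ hb
    rw [map_smul, Basis.repr_self, Finsupp.smul_apply, Finsupp.single_eq_of_ne hb.symm, smul_zero]
  · intro h
    exact absurd (Finset.mem_univ _) h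

theorem result (m n : ℕ) (ψ : SL m →* SL n) (Γ : Subgroup (SL n))
    (hpd : ProperlyDiscontinuous ψ Γ) (hc : CompactQuotient ψ Γ) :
    -- a relative invariant of `d` vectors excludes virtually invariant subspaces of dimension `d`
    (∀ (d k : ℕ) (P : (Fin d → Fin n → ℝ) → ℝ), 0 < d → d < n → 0 < k →
      RelativeInvariant (fun x => mat (ψ x)) d k P → NoneOfDim Γ d) ∧
    -- one of `d` covectors excludes those of dimension `n - d`
    (∀ (d k : ℕ) (P : (Fin d → Fin n → ℝ) → ℝ), 0 < d → d < n → 0 < k →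
      RelativeInvariant (fun x => (mat (ψ x))ᵀ) d k P → NoneOfDim Γ (n - d)) ∧
    -- so does a `d`-dimensional subspace which is invariant under the image of `ψ`
    (∀ W : Submodule ℝ (Fin n → ℝ), (∀ x : SL m, ∀ w ∈ W, mat (ψ x) *ᵥ w ∈ W) →
      0 < finrank ℝ W → finrank ℝ W < n → NoneOfDim Γ (n - finrank ℝ W)) ∧
    -- the standard embedding
    (IsStandard ψ → ∀ d : ℕ, 0 < d → d < n → d ≤ n - m ∨ m ≤ d → NoneOfDim Γ d) ∧
    -- polynomial representations, `d (n - d) ≥ m ^ 2 - 1`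
    (IsPolynomial ψ → ∀ d : ℕ, 0 < d → d < n → m ^ 2 ≤ d * (n - d) + 1 → NoneOfDim Γ d) ∧
    -- the standard embedding, all dimensions: the determinants on an invariant subspace
    (IsStandard ψ → m < n → ∀ (d : ℕ) (u : Fin d → Fin n → ℝ), 0 < d → d < n →
      LinearIndependent ℝ u → ¬ VirtuallyUnimodular Γ u) ∧
    -- so there are none if all subgroups of finite index have finite abelianizations
    (IsStandard ψ → m < n → FiniteAbelianizations Γ → ∀ d : ℕ, 0 < d → d < n →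
      NoneOfDim Γ d) := by
  have h1 : ∀ (d k : ℕ) (P : (Fin d → Fin n → ℝ) → ℝ), 0 < d → d < n → 0 < k →
      RelativeInvariant (fun x => mat (ψ x)) d k P →
      ∀ U : Submodule ℝ (Fin n → ℝ), finrank ℝ U = d → ¬ VirtuallyInvariant Γ U := by
    rintro d k P hd hdn hk ⟨hP, hP0, hinv, hwt⟩ U hU ⟨Γ₀, hΓ, hfin, hinvU⟩
    exact Pool.Agent.H9.IH.main m n d k hd hdn hk ψ P hP hP0 hinv hwt Γ hpd hc Γ₀ hΓ hfin U hU hinvU
  have h2 : ∀ W U : Submodule ℝ (Fin n → ℝ), (∀ x : SL m, ∀ w ∈ W, mat (ψ x) *ᵥ w ∈ W) →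
      0 < finrank ℝ W → 0 < finrank ℝ U → finrank ℝ U + finrank ℝ W = n →
      ¬ VirtuallyInvariant Γ U := by
    intro W U hW hW0 hU0 hWU
    obtain ⟨P, hP, hP0, hinv, hwt⟩ := Pool.Agent.H9.IH.rel_of_subspace (d := finrank ℝ U) ψ W hW hWU
    exact h1 (finrank ℝ U) 2 P hU0 (by omega) two_pos ⟨hP, hP0, hinv, hwt⟩ U rfl
  have h3 : ∀ (d k : ℕ) (P : (Fin d → Fin n → ℝ) → ℝ), 0 < d → d < n → 0 < k →
      RelativeInvariant (fun x => (mat (ψ x))ᵀ) d k P →
      ∀ U : Submodule ℝ (Fin n → ℝ), finrank ℝ U + d = n → ¬ VirtuallyInvariant Γ U := by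
    rintro d k P hd hdn hk ⟨hP, hP0, hinv, hwt⟩ U hU ⟨Γ₀, hΓ, hfin, hinvU⟩
    exact Pool.Agent.H9.IH.main_dual m n d k hd hdn hk ψ P hP hP0 hinv hwt Γ hpd hc Γ₀ hΓ hfin U hU
      hinvU
  have h4 : IsStandard ψ → ∀ U : Submodule ℝ (Fin n → ℝ), 0 < finrank ℝ U → finrank ℝ U < n →
      finrank ℝ U ≤ n - m ∨ m ≤ finrank ℝ U → ¬ VirtuallyInvariant Γ U := by
    rintro ⟨hmn, hψ⟩ U hU0 hUn hd
    obtain ⟨W, hW, hdim⟩ := Pool.Agent.H9.IH.std_subspace hmn ψ hψ hUn.le hd
    exact h2 W U hW (by omega) hU0 hdim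
  have h6 : IsStandard ψ → m < n → ∀ U : Submodule ℝ (Fin n → ℝ), 0 < finrank ℝ U →
      finrank ℝ U < n → ∀ Γ₀ : Subgroup (SL n), Γ₀ ≤ Γ → Γ₀.relIndex Γ ≠ 0 →
      ∀ h : ∀ γ ∈ Γ₀, ∀ u ∈ U, mat γ *ᵥ u ∈ U,
      ∃ (γ : SL n) (hγ : γ ∈ Γ₀),
        |LinearMap.det ((mat γ).mulVecLin.restrict (h γ hγ))| ≠ 1 := by
    intro hψ hmn U hU0 hUn Γ₀ hΓ hfin h
    by_cases hd : finrank ℝ U ≤ n - m
    · exact absurd ⟨Γ₀, hΓ, hfin, h⟩ (h4 hψ U hU0 hUn (Or.inl hd))
    · obtain ⟨k, hk⟩ : ∃ k, n = m + k := ⟨n - m, by omega⟩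
      subst hk
      exact Pool.Agent.H9.JF.det_clause (by omega) (by omega) ψ hψ.2 Γ Γ₀ hpd hc hΓ hfin U
        (by omega) hUn h
  have h7 : IsStandard ψ → m < n → FiniteAbelianizations Γ → ∀ d : ℕ, 0 < d → d < n →
      NoneOfDim Γ d := by
    rintro hψ hmn hab d hd0 hdn U rfl ⟨Γ₀, hΓ, hfin, h⟩
    obtain ⟨γ, hγ, hne⟩ := h6 hψ hmn U hd0 hdn Γ₀ hΓ hfin h
    exact hne (abs_det_eq_one Γ₀ (hab Γ₀ hΓ hfin) U h γ hγ)
  have h8 : IsStandard ψ → m < n → ∀ (d : ℕ) (u : Fin d → Fin n → ℝ), 0 < d → d < n →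
      LinearIndependent ℝ u → ¬ VirtuallyUnimodular Γ u := by
    rintro hψ hmn d u hd0 hdn hu ⟨Γ₀, hΓ, hfin, hU⟩
    have h : ∀ γ ∈ Γ₀, ∀ x ∈ Submodule.span ℝ (Set.range u),
        mat γ *ᵥ x ∈ Submodule.span ℝ (Set.range u) := by
      intro γ hγ x hx
      obtain ⟨A, hA, _⟩ := hU γ hγ
      have h9 : Submodule.span ℝ (Set.range u) ≤
          (Submodule.span ℝ (Set.range u)).comap (mat γ).mulVecLin := by
        rw [Submodule.span_le]
        rintro _ ⟨j, rfl⟩
        show mat γ *ᵥ u j ∈ Submodule.span ℝ (Set.range u)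
        rw [hA]
        exact Submodule.sum_mem _ fun i _ => Submodule.smul_mem _ _
          (Submodule.subset_span ⟨i, rfl⟩)
      exact h9 hx
    have hdim : finrank ℝ (Submodule.span ℝ (Set.range u)) = d := by
      rw [finrank_span_eq_card hu, Fintype.card_fin]
    obtain ⟨γ, hγ, hne⟩ := h6 hψ hmn _ (by rw [hdim]; exact hd0) (by rw [hdim]; exact hdn)
      Γ₀ hΓ hfin h
    obtain ⟨A, hA, hA1⟩ := hU γ hγ
    apply hne
    rw [det_span u hu (mat γ) A hA _ fun x => rfl, hA1]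
  refine ⟨h1, fun d k P hd hdn hk hP U hU => h3 d k P hd hdn hk hP U (by omega),
    fun W hW hW0 hWn U hU => h2 W U hW hW0 (by omega) (by omega),
    fun hψ d hd0 hdn hd U hU => h4 hψ U (by omega) (by omega) (by rw [hU]; exact hd), ?_, h8, h7⟩
  rintro ⟨F, hF⟩ d hd0 hdn hd U rfl
  have hU0 := hd0
  have hUn := hdn
  rcases Nat.eq_zero_or_pos m with hm | hm
  · subst hm
    refine h4 ⟨Nat.zero_le _, fun x i j => ?_⟩ U hU0 hUn (Or.inl (by omega))
    have hx : x = 1 := Subsingleton.elim _ _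
    subst hx
    rw [map_one, dif_neg (by omega)]
    exact Matrix.one_apply
  · obtain ⟨e, he⟩ : ∃ e, n = finrank ℝ U + e := ⟨n - finrank ℝ U, by omega⟩
    have he' : n - finrank ℝ U = e := by omega
    have hcard : m * m + (n - finrank ℝ U) * (n - finrank ℝ U) ≤ n * (n - finrank ℝ U) + 1 := by
      rw [he'] at hd ⊢
      have h5 : n * e = finrank ℝ U * e + e * e := by
        rw [← Nat.add_mul, ← he]
      rw [h5]
      nlinarith
    obtain ⟨k, P, hk, hP0, hw, hi⟩ := Pool.Agent.H9.JD.inv_of_dim ψ F hF hm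
      (d := n - finrank ℝ U) (by omega) hcard
    exact h3 (n - finrank ℝ U) k _ (by omega) (by omega) hk (rel_of_matrix ψ P hP0 hw hi) U
      (by omega)

end Pool.Agent.Results.MP_4fe60b_al.IrreducibleHolonomy
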