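import Pool.Agent.H9.IZ.Fn
import Pool.Agent.H9.IZ.Iv
import Pool.Agent.H9.JD.Fin2

/-!
# MP_4fe60b_al: cocompact discontinuous groups for `SL(n, ℝ) / ψ(SL(m, ℝ))` are Zariski dense

Let the transposes of the image of `ψ` have a polynomial relative invariant of `d` vectors for every
`0 < d < n`. Then every group which acts properly discontinuously with compact quotient on
`SL(n, ℝ) / ψ(SL(m, ℝ))` is Zariski dense in `SL(n, ℝ)`. The hypothesis holds for all polynomial
representations of dimension `n ≥ m²`, for the symmetric square of `ℝ^m`, and for the standard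
embedding with `2 m ≤ n + 1`.
-/

set_option autoImplicit false

open Matrix MvPolynomial Module

namespace Pool.Agent.Results.MP_4fe60b_al.ZariskiDense

/-- The group `SL(n, ℝ)`; its topology is that of a set of matrices. -/
abbrev SL (n : ℕ) : Type := Matrix.SpecialLinearGroup (Fin n) ℝ

/-- The matrix of an element of `SL(n, ℝ)`. -/
abbrev mat {n : ℕ} (g : SL n) : Matrix (Fin n) (Fin n) ℝ := (g : Matrix (Fin n) (Fin n) ℝ)

/-- `Γ` acts properly discontinuously on `SL(n, ℝ) / ψ(SL(m, ℝ))`. -/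
def ProperlyDiscontinuous {m n : ℕ} (ψ : SL m →* SL n) (Γ : Subgroup (SL n)) : Prop :=
  ∀ K : Set (SL n ⧸ ψ.range), IsCompact K → {γ : Γ | ∃ x ∈ K, γ • x ∈ K}.Finite

/-- The quotient of `SL(n, ℝ) / ψ(SL(m, ℝ))` by the left translations of `Γ` is compact. -/
def CompactQuotient {m n : ℕ} (ψ : SL m →* SL n) (Γ : Subgroup (SL n)) : Prop :=
  CompactSpace (MulAction.orbitRel.Quotient Γ (SL n ⧸ ψ.range))

/-- Every polynomial in the matrix entries which vanishes on `Γ` vanishes on `SL(n, ℝ)`. -/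
def IsZariskiDense {n : ℕ} (Γ : Subgroup (SL n)) : Prop :=
  ∀ q : MvPolynomial (Fin n × Fin n) ℝ,
    (∀ γ ∈ Γ, MvPolynomial.eval (fun p => mat γ p.1 p.2) q = 0) →
      ∀ g : SL n, MvPolynomial.eval (fun p => mat g p.1 p.2) q = 0

/-- The only `Γ`-invariant subspaces of `ℝ^n` are `0` and `ℝ^n`. -/
def NoInvariantSubspace {n : ℕ} (Γ : Subgroup (SL n)) : Prop :=
  ∀ U : Submodule ℝ (Fin n → ℝ), (∀ γ ∈ Γ, ∀ u ∈ U, mat γ *ᵥ u ∈ U) → U = ⊥ ∨ U = ⊤

/-- The value of a polynomial in `n * d` variables at `d` vectors; the variable `(i, j)` is the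
`i`-th coordinate of the `j`-th vector. -/
noncomputable def valueAt {n d : ℕ} (f : MvPolynomial (Fin n × Fin d) ℝ)
    (v : Fin d → Fin n → ℝ) : ℝ :=
  MvPolynomial.eval (fun p => v p.2 p.1) f

/-- `f(A v_1, ..., A v_d) = f(v_1, ..., v_d)`. -/
def InvTuple {n d : ℕ} (A : Matrix (Fin n) (Fin n) ℝ) (f : MvPolynomial (Fin n × Fin d) ℝ) : Prop :=
  ∀ v : Fin d → Fin n → ℝ, valueAt f (fun j => A *ᵥ v j) = valueAt f v

/-- `f(w) = det(B)^k f(v)` if `w_j = ∑_i B_ij v_i`. -/
def Weight {n d : ℕ} (k : ℕ) (f : MvPolynomial (Fin n × Fin d) ℝ) : Prop :=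
  ∀ (B : Matrix (Fin d) (Fin d) ℝ) (v : Fin d → Fin n → ℝ),
    valueAt f (fun j => ∑ i, B i j • v i) = B.det ^ k * valueAt f v

/-- For every `0 < d < n` there is a nonzero polynomial of `d` vectors, invariant under the
transposes of the image of `ψ`, with the weight `det(B)^k` for some `k ≥ 1`. -/
def AllRelativeInvariants {m n : ℕ} (ψ : SL m →* SL n) : Prop :=
  ∀ d : ℕ, 0 < d → d < n → ∃ (k : ℕ) (P : MvPolynomial (Fin n × Fin d) ℝ),
    0 < k ∧ P ≠ 0 ∧ Weight k P ∧ ∀ x : SL m, InvTuple (mat (ψ x))ᵀ P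

/-- `ψ` is the standard embedding: `x` in the upper left corner, the identity matrix in the lower
right corner, zero elsewhere. -/
def IsStandard {m n : ℕ} (ψ : SL m →* SL n) : Prop :=
  ∀ (x : SL m) (i j : Fin n),
    mat (ψ x) i j = if h : (i : ℕ) < m ∧ (j : ℕ) < m then
      mat x ⟨i, h.1⟩ ⟨j, h.2⟩ else if i = j then 1 else 0

/-- The entries of `ψ(x)` are polynomials in the entries of `x`. -/
def IsPolynomial {m n : ℕ} (ψ : SL m →* SL n) : Prop :=
  ∃ F : Fin n → Fin n → MvPolynomial (Fin m × Fin m) ℝ, ∀ (x : SL m) (i j : Fin n),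
    mat (ψ x) i j = MvPolynomial.eval (fun p => mat x p.1 p.2) (F i j)

/-- `ψ` is the symmetric square of `ℝ^m`: an isomorphism `T` of `ℝ^n` with the space of symmetric
`m × m` matrices takes `ψ(x)` to `S ↦ x S xᵀ`. -/
def IsSymSquare {m n : ℕ} (ψ : SL m →* SL n) : Prop :=
  ∃ T : (Fin n → ℝ) →ₗ[ℝ] Matrix (Fin m) (Fin m) ℝ, Function.Injective T ∧
    (∀ S : Matrix (Fin m) (Fin m) ℝ, S.IsSymm ↔ ∃ v, T v = S) ∧
    ∀ (x : SL m) (v : Fin n → ℝ), T (mat (ψ x) *ᵥ v) = mat x * T v * (mat x)ᵀ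

/-- Some form `p ≠ 0` of positive degree on `ℝ^n` is invariant under all matrices `A x`. -/
def HasInvariantForm {m n : ℕ} (A : SL m → Matrix (Fin n) (Fin n) ℝ) : Prop :=
  ∃ (k : ℕ) (p : MvPolynomial (Fin n) ℝ), 0 < k ∧ p ≠ 0 ∧ p.IsHomogeneous k ∧
    ∀ (x : SL m) (y : Fin n → ℝ), MvPolynomial.eval (A x *ᵥ y) p = MvPolynomial.eval y p

/-- from the matrix form of the relative invariants -/
theorem all_of_rel {m n : ℕ} (ψ : SL m →* SL n)
    (h : ∀ d : ℕ, 0 < d → d < n → Pool.Agent.H9.JD.RelD ψ d) : AllRelativeInvariants ψ := by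
  intro d hd hdn
  obtain ⟨k, P, hk, hP0, hP1, hP2⟩ := h d hd hdn
  refine ⟨k, P, hk, hP0, fun B v => ?_, fun x v => ?_⟩
  · have h1 := hP1 B (Matrix.of fun i j => v j i)
    have e : (fun p : Fin n × Fin d => (fun j => ∑ i, B i j • v i) p.2 p.1) =
        fun p => ((Matrix.of fun i j => v j i : Matrix (Fin n) (Fin d) ℝ) * B) p.1 p.2 := by
      funext p
      show (∑ i, B i p.2 • v i) p.1 = _
      rw [Matrix.mul_apply, Finset.sum_apply]
      refine Finset.sum_congr rfl fun i _ => ?_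
      rw [Pi.smul_apply, smul_eq_mul, mul_comm]
      rfl
    unfold valueAt
    rw [e]
    exact h1
  · exact hP2 x (Matrix.of fun i j => v j i)

/-- the trivial group `SL(0, ℝ)` -/
theorem all_of_zero {m n : ℕ} (hm : m = 0) (ψ : SL m →* SL n) : AllRelativeInvariants ψ := by
  subst hm
  intro d hd hdn
  obtain ⟨P, hP0, hPw, _, hPi⟩ := Pool.Agent.H9.IR.std_all (m := 0) (n := n) (by omega) (by omega) ψ
    (fun x i j => by
      have hx : x = 1 := Subsingleton.elim _ _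
      subst hx
      rw [map_one, dif_neg (by omega)]
      exact Matrix.one_apply) d hd hdn
  exact ⟨1, P, one_pos, hP0, hPw, hPi⟩

theorem result (m n : ℕ) (ψ : SL m →* SL n) (Γ : Subgroup (SL n)) (hc : CompactQuotient ψ Γ) :
    -- (1) invariant polynomials of any number of vectors
    (AllRelativeInvariants ψ → ∀ (N : ℕ) (f : MvPolynomial (Fin n × Fin N) ℝ),
      (∀ γ ∈ Γ, InvTuple (mat γ) f) → ∀ g : SL n, InvTuple (mat g) f) ∧
    -- (2) irreducible cocompact groups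
    (AllRelativeInvariants ψ → NoInvariantSubspace Γ → IsZariskiDense Γ) ∧
    -- (3) discontinuous cocompact groups
    (AllRelativeInvariants ψ → ProperlyDiscontinuous ψ Γ → IsZariskiDense Γ) ∧
    -- (4) polynomial representations of dimension at least `m ^ 2`
    (IsPolynomial ψ → m ^ 2 ≤ n → AllRelativeInvariants ψ) ∧
    -- (5) polynomial representations with two invariant forms
    (IsPolynomial ψ → m ^ 2 + 3 ≤ 2 * n → HasInvariantForm (fun x => mat (ψ x)) →
      HasInvariantForm (fun x => (mat (ψ x))ᵀ) → AllRelativeInvariants ψ) ∧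
    -- (6) the symmetric square
    (IsSymSquare ψ → AllRelativeInvariants ψ) ∧
    -- (7) the image of `ψ` leaves a subspace of every dimension invariant
    ((∀ d : ℕ, 0 < d → d < n → ∃ W : Submodule ℝ (Fin n → ℝ), finrank ℝ W = d ∧
      ∀ x : SL m, ∀ w ∈ W, mat (ψ x) *ᵥ w ∈ W) → AllRelativeInvariants ψ) ∧
    -- (8) the standard embedding
    (IsStandard ψ → m < n → 2 * m ≤ n + 1 → AllRelativeInvariants ψ) := by
  refine ⟨?_, ?_, ?_, ?_, ?_, ?_, ?_, ?_⟩
  · intro hP N f hf g v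
    exact Pool.Agent.H9.IZ.invariants ψ hP Γ hc f
      (fun γ hγ w => hf γ hγ fun j i => w i j) g (Matrix.of fun i j => v j i)
  · intro hP hirr q hq g
    exact Pool.Agent.H9.IZ.dense_of_irreducible ψ hP Γ hc hirr q hq g
  · intro hP hpd q hq g
    exact Pool.Agent.H9.IZ.dense_of_pd ψ hP Γ hpd hc q hq g
  · intro hpol hmn
    obtain ⟨F, hF⟩ := hpol
    rcases Nat.eq_zero_or_pos m with hm | hm
    · exact all_of_zero hm ψ
    exact all_of_rel ψ fun d hd hdn => Pool.Agent.H9.JD.rel_of_large ψ F hF hm hmn hd hdn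
  · intro hpol hmn h1 h2
    obtain ⟨F, hF⟩ := hpol
    rcases Nat.eq_zero_or_pos m with hm | hm
    · exact all_of_zero hm ψ
    exact all_of_rel ψ fun d hd hdn =>
      Pool.Agent.H9.JD.rel_of_two ψ F hF hm (Or.inr hmn) h1 h2 hd hdn
  · rintro ⟨T, hT, hr, hψ⟩
    exact all_of_rel ψ fun d hd hdn => Pool.Agent.H9.JD.rel_of_sym ψ T hT hr hψ hd hdn
  · intro hW d hd hdn
    obtain ⟨W, hWd, hWi⟩ := hW d hd hdn
    obtain ⟨P, hP0, hPw, hPi⟩ := Pool.Agent.H9.IZ.pol_of_subspace ψ W hWi hWd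
    exact ⟨2, P, two_pos, hP0, hPw, hPi⟩
  · intro hψ hmn h2m d hd hdn
    obtain ⟨P, hP0, hPw, _, hPi⟩ := Pool.Agent.H9.IR.std_all hmn h2m ψ hψ d hd hdn
    exact ⟨1, P, one_pos, hP0, hPw, hPi⟩

end Pool.Agent.Results.MP_4fe60b_al.ZariskiDense
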